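import Pool.Agent.W593.ZT.Stm

/-! Project ZT, part FFN. -/

open scoped Classical

set_option autoImplicit false

namespace Pool.Agent.W962.ZT

open Pool.Agent.W593.ZT

theorem FFN : S_FFN := by
  intro V G _ c B hB
  have h1 : ∀ z ∈ Finset.univ \ B,
      (min (Cs c B z).card 3 - 1) + (if (Cs c B z).card = 1 then 1 else 0)
        = 1 + (if 3 ≤ (Cs c B z).card then 1 else 0) := by
    intro z _
    have h2 : 0 < (Cs c B z).card := Finset.card_pos.2 (hB.image _)
    split_ifs <;> omega
  have h3 := Finset.sum_congr rfl h1
  rw [Finset.sum_add_distrib, Finset.sum_add_distrib, Finset.sum_const, smul_eq_mul, mul_one,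
    ← Finset.card_filter, ← Finset.card_filter] at h3
  have h4 : FF c B + n1 c B = (Finset.univ \ B).card + n3 c B := by
    unfold FF n1 n3
    convert h3
  have h5 : (Finset.univ \ B).card + B.card = Fintype.card V := by
    rw [Finset.card_sdiff_add_card_eq_card (Finset.subset_univ B), Finset.card_univ]
  omega

end Pool.Agent.W962.ZT
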